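import Pool.Agent.helper20.SOL.SpecE

set_option autoImplicit false

namespace Pool.Agent.SOL

open Pool.Agent.helper54.SOG Finset

open scoped BigOperators

/-- facts on a representative -/
def ME6a_G (k : ℕ) (y : Vec 8) (n : Fin 9 → ℕ) : Prop :=
  y ∈ VE R6 k ∧ ((∀ i j, y i % 2 = y j % 2) ∧ (∑ i, y i) % 4 = 0 ∧ ∀ i, |y i| ≤ 8) ∧
    (cN 5 y 0 = n 0 ∧ cN 5 y 1 = n 1 ∧ cN 5 y 2 = n 2 ∧ cN 5 y 3 = n 3 ∧ cN 5 y 4 = n 4 ∧
      cN 5 y 5 = n 5 ∧ cN 5 y 6 = n 6 ∧ cN 5 y 7 = n 7 ∧ cN 5 y 8 = n 8)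

lemma ME6a_mk (hCLQ : CLQ_stmt) (L : List (Vec 8))
    (hL : ∀ a ∈ L, (∀ i j, a i % 2 = a j % 2) ∧ (∑ i, a i) % 4 = 0 ∧ a 6 + a 7 = 0 ∧ a 5 = a 6 ∧
      dp a a = 8) (hP : L.Pairwise (fun a b => dp a b = 0)) : L.sum ∈ VE R6 L.length := by
  refine hCLQ R6 L (fun a ha => ?_) hP
  obtain ⟨g1, g2, g3, g4, g5⟩ := hL a ha
  exact ⟨⟨⟨g1, g2⟩, g3, g4, by rw [g5]; norm_num⟩, g5⟩

lemma ME6a_fin (hREP : REP_stmt) (hCTE : CTE_stmt) (hPRD : PRD_stmt)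
    (k : ℕ) (x : Vec 8) (hx : x ∈ EL) (hx8 : ∀ i, |x i| ≤ 8) (y : Vec 8) (n : Fin 9 → ℕ)
    (hG : ME6a_G k y n) (h5 : x 5 = y 5) (h6 : x 6 = y 6) (h7 : x 7 = y 7)
    (hc : cN 5 x 0 = n 0 ∧ cN 5 x 1 = n 1 ∧ cN 5 x 2 = n 2 ∧ cN 5 x 3 = n 3 ∧ cN 5 x 4 = n 4 ∧
      cN 5 x 5 = n 5 ∧ cN 5 x 6 = n 6 ∧ cN 5 x 7 = n 7 ∧ cN 5 x 8 = n 8)
    (hz : x 0 % 2 = 1 ∨ 0 < n 0) :
    x ∈ VE R6 k := by
  obtain ⟨hyV, hy, hn⟩ := hG
  have hge : ∀ i : Fin 8, 5 ≤ i.val → x i = y i := by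
    intro i hi
    fin_cases i <;> first | exact h5 | exact h6 | exact h7 | (exfalso; simp at hi)
  have hcall : ∀ v : ℤ, cN 5 x v = cN 5 y v := by
    intro v
    by_cases hv : v < 0 ∨ 8 < v
    · rw [(hCTE 5 x (by norm_num) hx8).2.2.1 v hv, (hCTE 5 y (by norm_num) hy.2.2).2.2.1 v hv]
    · push Not at hv
      obtain ⟨a0, a1, a2, a3, a4, a5, a6, a7, a8⟩ := hn
      obtain ⟨b0, b1, b2, b3, b4, b5, b6, b7, b8⟩ := hc
      have hv1 := hv.1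
      have hv2 := hv.2
      interval_cases v
      · rw [a0, b0]
      · rw [a1, b1]
      · rw [a2, b2]
      · rw [a3, b3]
      · rw [a4, b4]
      · rw [a5, b5]
      · rw [a6, b6]
      · rw [a7, b7]
      · rw [a8, b8]
  refine (hREP k x y).2.2 hge hcall ?_ hyV
  rcases hz with h | h
  · exact hPRD.1 5 x y (Or.inr (Or.inr rfl)) hx ⟨hy.1, hy.2.1⟩ h hge hcall
  · have h0 : 0 < cN 5 x 0 := by rw [hc.1]; exact h
    have := hPRD.2.1 5 x y hcall h0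
    rw [this.1, this.2]

lemma ME6a_par (x : Vec 8) (hpar : ∀ i j, x i % 2 = x j % 2) (v : ℤ) (hv : v % 2 ≠ x 0 % 2) :
    cN 5 x v = 0 := by
  unfold cN
  rw [card_eq_zero, filter_eq_empty_iff]
  rintro i _ ⟨_, hi⟩
  apply hv
  rw [← hi, hpar 0 i]
  rcases abs_cases (x i) with ⟨h, _⟩ | ⟨h, _⟩
  · rw [h]
  · rw [h]
    omega

lemma ME6a_ev (c0 c1 c2 c3 c4 c5 c6 c7 c8 : ℕ) (m : ℤ) (hm : m ≤ 24)
    (e1 : c0 + c1 + c2 + c3 + c4 + c5 + c6 + c7 + c8 = 5)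
    (e4 : m = (c1 : ℤ) + 2 * 2 * (c2 : ℤ) + 3 * 3 * (c3 : ℤ) + 4 * 4 * (c4 : ℤ) + 5 * 5 * (c5 : ℤ) +
      6 * 6 * (c6 : ℤ) + 7 * 7 * (c7 : ℤ) + 8 * 8 * (c8 : ℤ))
    (q1 : c1 = 0) (q3 : c3 = 0) (q5 : c5 = 0) (q7 : c7 = 0) :
    c6 = 0 ∧ c8 = 0 ∧ c0 + c2 + c4 = 5 ∧ m = 4 * (c2 : ℤ) + 16 * (c4 : ℤ) := by
  subst q1 q3 q5 q7
  have h8 : c8 = 0 := by omega
  have h6 : c6 = 0 := by omega
  subst h8 h6
  refine ⟨rfl, rfl, by omega, by push_cast at e4; linarith⟩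

lemma ME6a_od (c0 c1 c2 c3 c4 c5 c6 c7 c8 : ℕ) (m : ℤ) (hm : m ≤ 24)
    (e1 : c0 + c1 + c2 + c3 + c4 + c5 + c6 + c7 + c8 = 5)
    (e4 : m = (c1 : ℤ) + 2 * 2 * (c2 : ℤ) + 3 * 3 * (c3 : ℤ) + 4 * 4 * (c4 : ℤ) + 5 * 5 * (c5 : ℤ) +
      6 * 6 * (c6 : ℤ) + 7 * 7 * (c7 : ℤ) + 8 * 8 * (c8 : ℤ))
    (q0 : c0 = 0) (q2 : c2 = 0) (q4 : c4 = 0) (q6 : c6 = 0) (q8 : c8 = 0) :
    c5 = 0 ∧ c7 = 0 ∧ c1 + c3 = 5 ∧ m = (c1 : ℤ) + 9 * (c3 : ℤ) := by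
  subst q0 q2 q4 q6 q8
  have h7 : c7 = 0 := by omega
  have h5 : c5 = 0 := by omega
  subst h7 h5
  refine ⟨rfl, rfl, by omega, by push_cast at e4; linarith⟩

lemma ME6a_y1 (hCLQ : CLQ_stmt) : ME6a_G 1 ![1, 1, 1, 1, 1, -1, -1, 1] ![0, 5, 0, 0, 0, 0, 0, 0, 0] := by
  have h := ME6a_mk hCLQ [(![1, 1, 1, 1, 1, -1, -1, 1] : Vec 8)] (by decide) (by decide)
  have e : [(![1, 1, 1, 1, 1, -1, -1, 1] : Vec 8)].sum = (![1, 1, 1, 1, 1, -1, -1, 1] : Vec 8) := by decide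
  rw [e] at h
  exact ⟨h, by decide, by decide⟩

lemma ME6a_y2 (hCLQ : CLQ_stmt) : ME6a_G 1 ![2, 2, 0, 0, 0, 0, 0, 0] ![3, 0, 2, 0, 0, 0, 0, 0, 0] := by
  have h := ME6a_mk hCLQ [(![2, 2, 0, 0, 0, 0, 0, 0] : Vec 8)] (by decide) (by decide)
  have e : [(![2, 2, 0, 0, 0, 0, 0, 0] : Vec 8)].sum = (![2, 2, 0, 0, 0, 0, 0, 0] : Vec 8) := by decide
  rw [e] at h
  exact ⟨h, by decide, by decide⟩

lemma ME6a_y3 (hCLQ : CLQ_stmt) : ME6a_G 1 ![1, 1, 1, 1, -1, 1, 1, -1] ![0, 5, 0, 0, 0, 0, 0, 0, 0] := by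
  have h := ME6a_mk hCLQ [(![1, 1, 1, 1, -1, 1, 1, -1] : Vec 8)] (by decide) (by decide)
  have e : [(![1, 1, 1, 1, -1, 1, 1, -1] : Vec 8)].sum = (![1, 1, 1, 1, -1, 1, 1, -1] : Vec 8) := by decide
  rw [e] at h
  exact ⟨h, by decide, by decide⟩

lemma ME6a_y4 (hCLQ : CLQ_stmt) : ME6a_G 2 ![2, 0, 0, 0, 0, -2, -2, 2] ![4, 0, 1, 0, 0, 0, 0, 0, 0] := by
  have h := ME6a_mk hCLQ [(![1, 1, 1, 1, 1, -1, -1, 1] : Vec 8), (![1, -1, -1, -1, -1, -1, -1, 1] : Vec 8)] (by decide) (by decide)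
  have e : [(![1, 1, 1, 1, 1, -1, -1, 1] : Vec 8), (![1, -1, -1, -1, -1, -1, -1, 1] : Vec 8)].sum = (![2, 0, 0, 0, 0, -2, -2, 2] : Vec 8) := by decide
  rw [e] at h
  exact ⟨h, by decide, by decide⟩

lemma ME6a_y5 (hCLQ : CLQ_stmt) : ME6a_G 2 ![3, 1, 1, 1, -1, -1, -1, 1] ![0, 4, 0, 1, 0, 0, 0, 0, 0] := by
  have h := ME6a_mk hCLQ [(![2, 2, 0, 0, 0, 0, 0, 0] : Vec 8), (![1, -1, 1, 1, -1, -1, -1, 1] : Vec 8)] (by decide) (by decide)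
  have e : [(![2, 2, 0, 0, 0, 0, 0, 0] : Vec 8), (![1, -1, 1, 1, -1, -1, -1, 1] : Vec 8)].sum = (![3, 1, 1, 1, -1, -1, -1, 1] : Vec 8) := by decide
  rw [e] at h
  exact ⟨h, by decide, by decide⟩

lemma ME6a_y6 (hCLQ : CLQ_stmt) : ME6a_G 2 ![2, 2, 2, 2, 0, 0, 0, 0] ![1, 0, 4, 0, 0, 0, 0, 0, 0] := by
  have h := ME6a_mk hCLQ [(![2, 2, 0, 0, 0, 0, 0, 0] : Vec 8), (![0, 0, 2, 2, 0, 0, 0, 0] : Vec 8)] (by decide) (by decide)
  have e : [(![2, 2, 0, 0, 0, 0, 0, 0] : Vec 8), (![0, 0, 2, 2, 0, 0, 0, 0] : Vec 8)].sum = (![2, 2, 2, 2, 0, 0, 0, 0] : Vec 8) := by decide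
  rw [e] at h
  exact ⟨h, by decide, by decide⟩

lemma ME6a_y7 (hCLQ : CLQ_stmt) : ME6a_G 2 ![4, 0, 0, 0, 0, 0, 0, 0] ![4, 0, 0, 0, 1, 0, 0, 0, 0] := by
  have h := ME6a_mk hCLQ [(![2, 2, 0, 0, 0, 0, 0, 0] : Vec 8), (![2, -2, 0, 0, 0, 0, 0, 0] : Vec 8)] (by decide) (by decide)
  have e : [(![2, 2, 0, 0, 0, 0, 0, 0] : Vec 8), (![2, -2, 0, 0, 0, 0, 0, 0] : Vec 8)].sum = (![4, 0, 0, 0, 0, 0, 0, 0] : Vec 8) := by decide
  rw [e] at h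
  exact ⟨h, by decide, by decide⟩

lemma ME6a_y8 (hCLQ : CLQ_stmt) : ME6a_G 2 ![3, 1, 1, 1, 1, 1, 1, -1] ![0, 4, 0, 1, 0, 0, 0, 0, 0] := by
  have h := ME6a_mk hCLQ [(![2, 2, 0, 0, 0, 0, 0, 0] : Vec 8), (![1, -1, 1, 1, 1, 1, 1, -1] : Vec 8)] (by decide) (by decide)
  have e : [(![2, 2, 0, 0, 0, 0, 0, 0] : Vec 8), (![1, -1, 1, 1, 1, 1, 1, -1] : Vec 8)].sum = (![3, 1, 1, 1, 1, 1, 1, -1] : Vec 8) := by decide
  rw [e] at h
  exact ⟨h, by decide, by decide⟩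

lemma ME6a_y9 (hCLQ : CLQ_stmt) : ME6a_G 2 ![2, 0, 0, 0, 0, 2, 2, -2] ![4, 0, 1, 0, 0, 0, 0, 0, 0] := by
  have h := ME6a_mk hCLQ [(![1, 1, 1, 1, -1, 1, 1, -1] : Vec 8), (![1, -1, -1, -1, 1, 1, 1, -1] : Vec 8)] (by decide) (by decide)
  have e : [(![1, 1, 1, 1, -1, 1, 1, -1] : Vec 8), (![1, -1, -1, -1, 1, 1, 1, -1] : Vec 8)].sum = (![2, 0, 0, 0, 0, 2, 2, -2] : Vec 8) := by decide
  rw [e] at h
  exact ⟨h, by decide, by decide⟩

lemma ME6a_y10 (hCLQ : CLQ_stmt) : ME6a_G 3 ![2, 2, 2, 0, 0, -2, -2, 2] ![2, 0, 3, 0, 0, 0, 0, 0, 0] := by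
  have h := ME6a_mk hCLQ [(![2, 2, 0, 0, 0, 0, 0, 0] : Vec 8), (![1, -1, 1, 1, -1, -1, -1, 1] : Vec 8), (![-1, 1, 1, -1, 1, -1, -1, 1] : Vec 8)] (by decide) (by decide)
  have e : [(![2, 2, 0, 0, 0, 0, 0, 0] : Vec 8), (![1, -1, 1, 1, -1, -1, -1, 1] : Vec 8), (![-1, 1, 1, -1, 1, -1, -1, 1] : Vec 8)].sum = (![2, 2, 2, 0, 0, -2, -2, 2] : Vec 8) := by decide
  rw [e] at h
  exact ⟨h, by decide, by decide⟩

lemma ME6a_y11 (hCLQ : CLQ_stmt) : ME6a_G 3 ![3, 3, 1, 1, 1, -1, -1, 1] ![0, 3, 0, 2, 0, 0, 0, 0, 0] := by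
  have h := ME6a_mk hCLQ [(![2, 0, 2, 0, 0, 0, 0, 0] : Vec 8), (![0, 2, 0, 2, 0, 0, 0, 0] : Vec 8), (![1, 1, -1, -1, 1, -1, -1, 1] : Vec 8)] (by decide) (by decide)
  have e : [(![2, 0, 2, 0, 0, 0, 0, 0] : Vec 8), (![0, 2, 0, 2, 0, 0, 0, 0] : Vec 8), (![1, 1, -1, -1, 1, -1, -1, 1] : Vec 8)].sum = (![3, 3, 1, 1, 1, -1, -1, 1] : Vec 8) := by decide
  rw [e] at h
  exact ⟨h, by decide, by decide⟩

lemma ME6a_y12 (hCLQ : CLQ_stmt) : ME6a_G 3 ![4, 2, 2, 0, 0, 0, 0, 0] ![2, 0, 2, 0, 1, 0, 0, 0, 0] := by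
  have h := ME6a_mk hCLQ [(![2, 0, 0, 2, 0, 0, 0, 0] : Vec 8), (![2, 0, 0, -2, 0, 0, 0, 0] : Vec 8), (![0, 2, 2, 0, 0, 0, 0, 0] : Vec 8)] (by decide) (by decide)
  have e : [(![2, 0, 0, 2, 0, 0, 0, 0] : Vec 8), (![2, 0, 0, -2, 0, 0, 0, 0] : Vec 8), (![0, 2, 2, 0, 0, 0, 0, 0] : Vec 8)].sum = (![4, 2, 2, 0, 0, 0, 0, 0] : Vec 8) := by decide
  rw [e] at h
  exact ⟨h, by decide, by decide⟩

lemma ME6a_y13 (hCLQ : CLQ_stmt) : ME6a_G 3 ![3, 3, 1, 1, -1, 1, 1, -1] ![0, 3, 0, 2, 0, 0, 0, 0, 0] := by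
  have h := ME6a_mk hCLQ [(![2, 0, 2, 0, 0, 0, 0, 0] : Vec 8), (![0, 2, 0, 2, 0, 0, 0, 0] : Vec 8), (![1, 1, -1, -1, -1, 1, 1, -1] : Vec 8)] (by decide) (by decide)
  have e : [(![2, 0, 2, 0, 0, 0, 0, 0] : Vec 8), (![0, 2, 0, 2, 0, 0, 0, 0] : Vec 8), (![1, 1, -1, -1, -1, 1, 1, -1] : Vec 8)].sum = (![3, 3, 1, 1, -1, 1, 1, -1] : Vec 8) := by decide
  rw [e] at h
  exact ⟨h, by decide, by decide⟩

lemma ME6a_y14 (hCLQ : CLQ_stmt) : ME6a_G 3 ![2, 2, 2, 0, 0, 2, 2, -2] ![2, 0, 3, 0, 0, 0, 0, 0, 0] := by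
  have h := ME6a_mk hCLQ [(![2, 2, 0, 0, 0, 0, 0, 0] : Vec 8), (![1, -1, 1, 1, 1, 1, 1, -1] : Vec 8), (![-1, 1, 1, -1, -1, 1, 1, -1] : Vec 8)] (by decide) (by decide)
  have e : [(![2, 2, 0, 0, 0, 0, 0, 0] : Vec 8), (![1, -1, 1, 1, 1, 1, 1, -1] : Vec 8), (![-1, 1, 1, -1, -1, 1, 1, -1] : Vec 8)].sum = (![2, 2, 2, 0, 0, 2, 2, -2] : Vec 8) := by decide
  rw [e] at h
  exact ⟨h, by decide, by decide⟩

theorem ME6a (hREP : REP_stmt) (hCTE : CTE_stmt) (hPRD : PRD_stmt) (hCLQ : CLQ_stmt) :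
    ME6a_stmt := by
  intro k hk1 hk3 x hx
  obtain ⟨⟨hpar, hsum⟩, h67, h56, hdp⟩ := hx
  have hk3' : (k : ℤ) ≤ 3 := by exact_mod_cast hk3
  have hsq : ∀ i, x i * x i ≤ 24 := by
    intro i
    have h1 : x i * x i ≤ dp x x := by
      unfold dp
      exact single_le_sum (f := fun j => x j * x j) (fun j _ => mul_self_nonneg _) (mem_univ i)
    linarith
  have hle : ∀ i, |x i| ≤ 8 := by
    intro i
    have := hsq i
    rw [abs_le]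
    constructor
    · nlinarith
    · nlinarith
  obtain ⟨e1, e2, -, e4⟩ := hCTE 5 x (by norm_num) hle
  have e5 : ∑ i ∈ univ.filter (fun i : Fin 8 => ¬ i.val < 5), x i * x i = 3 * (x 5 * x 5) := by
    rw [sum_filter, Fin.sum_univ_eight]
    have h7 : x 7 = - x 5 := by linarith
    simp [← h56, h7]
    ring
  rw [e5, e2, hdp] at e4
  simp only [sum_range_succ, sum_range_zero, Nat.cast_ofNat, Nat.cast_zero, Nat.cast_one, zero_add,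
    zero_mul, one_mul] at e1 e4
  have hp := ME6a_par x hpar
  have ha := hsq 5
  have ha1 : -4 ≤ x 5 := by nlinarith
  have ha2 : x 5 ≤ 4 := by nlinarith
  have h50 : x 5 % 2 = x 0 % 2 := hpar 5 0
  have h7 : x 7 = - x 5 := by linarith
  have hxE : x ∈ EL := ⟨hpar, hsum⟩
  clear hpar hsum hsq ha e2 e5 hdp h67 hk3'
  interval_cases k
  · -- k = 1
    interval_cases hx5 : x 5
    · exfalso; clear e1 hp; omega
    · exfalso; clear e1 hp; omega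
    · exfalso; clear e1 hp; omega
    · obtain ⟨u1, u2, u3, u4⟩ := ME6a_od _ _ _ _ _ _ _ _ _ 5 (by norm_num) e1 (by push_cast at e4 ⊢; linarith) (hp 0 (by omega)) (hp 2 (by omega)) (hp 4 (by omega)) (hp 6 (by omega)) (hp 8 (by omega))
      have q0 := hp 0 (by omega)
      have q2 := hp 2 (by omega)
      have q4 := hp 4 (by omega)
      have q6 := hp 6 (by omega)
      have q8 := hp 8 (by omega)
      clear e1 e4 hp
      exact ME6a_fin hREP hCTE hPRD _ x hxE hle _ _ (ME6a_y1 hCLQ) hx5 (by rw [← h56]; rfl) (by rw [h7]; rfl) ⟨(by show cN 5 x 0 = 0; omega), (by show cN 5 x 1 = 5; omega), (by show cN 5 x 2 = 0; omega), (by show cN 5 x 3 = 0; omega), (by show cN 5 x 4 = 0; omega), (by show cN 5 x 5 = 0; omega), (by show cN 5 x 6 = 0; omega), (by show cN 5 x 7 = 0; omega), (by show cN 5 x 8 = 0; omega)⟩ (Or.inl (by omega))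
    · obtain ⟨u1, u2, u3, u4⟩ := ME6a_ev _ _ _ _ _ _ _ _ _ 8 (by norm_num) e1 (by push_cast at e4 ⊢; linarith) (hp 1 (by omega)) (hp 3 (by omega)) (hp 5 (by omega)) (hp 7 (by omega))
      have q1 := hp 1 (by omega)
      have q3 := hp 3 (by omega)
      have q5 := hp 5 (by omega)
      have q7 := hp 7 (by omega)
      clear e1 e4 hp
      exact ME6a_fin hREP hCTE hPRD _ x hxE hle _ _ (ME6a_y2 hCLQ) hx5 (by rw [← h56]; rfl) (by rw [h7]; rfl) ⟨(by show cN 5 x 0 = 3; omega), (by show cN 5 x 1 = 0; omega), (by show cN 5 x 2 = 2; omega), (by show cN 5 x 3 = 0; omega), (by show cN 5 x 4 = 0; omega), (by show cN 5 x 5 = 0; omega), (by show cN 5 x 6 = 0; omega), (by show cN 5 x 7 = 0; omega), (by show cN 5 x 8 = 0; omega)⟩ (Or.inr (by norm_num))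
    · obtain ⟨u1, u2, u3, u4⟩ := ME6a_od _ _ _ _ _ _ _ _ _ 5 (by norm_num) e1 (by push_cast at e4 ⊢; linarith) (hp 0 (by omega)) (hp 2 (by omega)) (hp 4 (by omega)) (hp 6 (by omega)) (hp 8 (by omega))
      have q0 := hp 0 (by omega)
      have q2 := hp 2 (by omega)
      have q4 := hp 4 (by omega)
      have q6 := hp 6 (by omega)
      have q8 := hp 8 (by omega)
      clear e1 e4 hp
      exact ME6a_fin hREP hCTE hPRD _ x hxE hle _ _ (ME6a_y3 hCLQ) hx5 (by rw [← h56]; rfl) (by rw [h7]; rfl) ⟨(by show cN 5 x 0 = 0; omega), (by show cN 5 x 1 = 5; omega), (by show cN 5 x 2 = 0; omega), (by show cN 5 x 3 = 0; omega), (by show cN 5 x 4 = 0; omega), (by show cN 5 x 5 = 0; omega), (by show cN 5 x 6 = 0; omega), (by show cN 5 x 7 = 0; omega), (by show cN 5 x 8 = 0; omega)⟩ (Or.inl (by omega))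
    · exfalso; clear e1 hp; omega
    · exfalso; clear e1 hp; omega
    · exfalso; clear e1 hp; omega
  · -- k = 2
    interval_cases hx5 : x 5
    · exfalso; clear e1 hp; omega
    · exfalso; clear e1 hp; omega
    · obtain ⟨u1, u2, u3, u4⟩ := ME6a_ev _ _ _ _ _ _ _ _ _ 4 (by norm_num) e1 (by push_cast at e4 ⊢; linarith) (hp 1 (by omega)) (hp 3 (by omega)) (hp 5 (by omega)) (hp 7 (by omega))
      have q1 := hp 1 (by omega)
      have q3 := hp 3 (by omega)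
      have q5 := hp 5 (by omega)
      have q7 := hp 7 (by omega)
      clear e1 e4 hp
      exact ME6a_fin hREP hCTE hPRD _ x hxE hle _ _ (ME6a_y4 hCLQ) hx5 (by rw [← h56]; rfl) (by rw [h7]; rfl) ⟨(by show cN 5 x 0 = 4; omega), (by show cN 5 x 1 = 0; omega), (by show cN 5 x 2 = 1; omega), (by show cN 5 x 3 = 0; omega), (by show cN 5 x 4 = 0; omega), (by show cN 5 x 5 = 0; omega), (by show cN 5 x 6 = 0; omega), (by show cN 5 x 7 = 0; omega), (by show cN 5 x 8 = 0; omega)⟩ (Or.inr (by norm_num))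
    · obtain ⟨u1, u2, u3, u4⟩ := ME6a_od _ _ _ _ _ _ _ _ _ 13 (by norm_num) e1 (by push_cast at e4 ⊢; linarith) (hp 0 (by omega)) (hp 2 (by omega)) (hp 4 (by omega)) (hp 6 (by omega)) (hp 8 (by omega))
      have q0 := hp 0 (by omega)
      have q2 := hp 2 (by omega)
      have q4 := hp 4 (by omega)
      have q6 := hp 6 (by omega)
      have q8 := hp 8 (by omega)
      clear e1 e4 hp
      exact ME6a_fin hREP hCTE hPRD _ x hxE hle _ _ (ME6a_y5 hCLQ) hx5 (by rw [← h56]; rfl) (by rw [h7]; rfl) ⟨(by show cN 5 x 0 = 0; omega), (by show cN 5 x 1 = 4; omega), (by show cN 5 x 2 = 0; omega), (by show cN 5 x 3 = 1; omega), (by show cN 5 x 4 = 0; omega), (by show cN 5 x 5 = 0; omega), (by show cN 5 x 6 = 0; omega), (by show cN 5 x 7 = 0; omega), (by show cN 5 x 8 = 0; omega)⟩ (Or.inl (by omega))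
    · obtain ⟨u1, u2, u3, u4⟩ := ME6a_ev _ _ _ _ _ _ _ _ _ 16 (by norm_num) e1 (by push_cast at e4 ⊢; linarith) (hp 1 (by omega)) (hp 3 (by omega)) (hp 5 (by omega)) (hp 7 (by omega))
      have q1 := hp 1 (by omega)
      have q3 := hp 3 (by omega)
      have q5 := hp 5 (by omega)
      have q7 := hp 7 (by omega)
      clear e1 e4 hp
      by_cases hc4 : cN 5 x 4 = 0
      · exact ME6a_fin hREP hCTE hPRD _ x hxE hle _ _ (ME6a_y6 hCLQ) hx5 (by rw [← h56]; rfl) (by rw [h7]; rfl) ⟨(by show cN 5 x 0 = 1; omega), (by show cN 5 x 1 = 0; omega), (by show cN 5 x 2 = 4; omega), (by show cN 5 x 3 = 0; omega), (by show cN 5 x 4 = 0; omega), (by show cN 5 x 5 = 0; omega), (by show cN 5 x 6 = 0; omega), (by show cN 5 x 7 = 0; omega), (by show cN 5 x 8 = 0; omega)⟩ (Or.inr (by norm_num))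
      · exact ME6a_fin hREP hCTE hPRD _ x hxE hle _ _ (ME6a_y7 hCLQ) hx5 (by rw [← h56]; rfl) (by rw [h7]; rfl) ⟨(by show cN 5 x 0 = 4; omega), (by show cN 5 x 1 = 0; omega), (by show cN 5 x 2 = 0; omega), (by show cN 5 x 3 = 0; omega), (by show cN 5 x 4 = 1; omega), (by show cN 5 x 5 = 0; omega), (by show cN 5 x 6 = 0; omega), (by show cN 5 x 7 = 0; omega), (by show cN 5 x 8 = 0; omega)⟩ (Or.inr (by norm_num))
    · obtain ⟨u1, u2, u3, u4⟩ := ME6a_od _ _ _ _ _ _ _ _ _ 13 (by norm_num) e1 (by push_cast at e4 ⊢; linarith) (hp 0 (by omega)) (hp 2 (by omega)) (hp 4 (by omega)) (hp 6 (by omega)) (hp 8 (by omega))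
      have q0 := hp 0 (by omega)
      have q2 := hp 2 (by omega)
      have q4 := hp 4 (by omega)
      have q6 := hp 6 (by omega)
      have q8 := hp 8 (by omega)
      clear e1 e4 hp
      exact ME6a_fin hREP hCTE hPRD _ x hxE hle _ _ (ME6a_y8 hCLQ) hx5 (by rw [← h56]; rfl) (by rw [h7]; rfl) ⟨(by show cN 5 x 0 = 0; omega), (by show cN 5 x 1 = 4; omega), (by show cN 5 x 2 = 0; omega), (by show cN 5 x 3 = 1; omega), (by show cN 5 x 4 = 0; omega), (by show cN 5 x 5 = 0; omega), (by show cN 5 x 6 = 0; omega), (by show cN 5 x 7 = 0; omega), (by show cN 5 x 8 = 0; omega)⟩ (Or.inl (by omega))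
    · obtain ⟨u1, u2, u3, u4⟩ := ME6a_ev _ _ _ _ _ _ _ _ _ 4 (by norm_num) e1 (by push_cast at e4 ⊢; linarith) (hp 1 (by omega)) (hp 3 (by omega)) (hp 5 (by omega)) (hp 7 (by omega))
      have q1 := hp 1 (by omega)
      have q3 := hp 3 (by omega)
      have q5 := hp 5 (by omega)
      have q7 := hp 7 (by omega)
      clear e1 e4 hp
      exact ME6a_fin hREP hCTE hPRD _ x hxE hle _ _ (ME6a_y9 hCLQ) hx5 (by rw [← h56]; rfl) (by rw [h7]; rfl) ⟨(by show cN 5 x 0 = 4; omega), (by show cN 5 x 1 = 0; omega), (by show cN 5 x 2 = 1; omega), (by show cN 5 x 3 = 0; omega), (by show cN 5 x 4 = 0; omega), (by show cN 5 x 5 = 0; omega), (by show cN 5 x 6 = 0; omega), (by show cN 5 x 7 = 0; omega), (by show cN 5 x 8 = 0; omega)⟩ (Or.inr (by norm_num))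
    · exfalso; clear e1 hp; omega
    · exfalso; clear e1 hp; omega
  · -- k = 3
    interval_cases hx5 : x 5
    · exfalso; clear e1 hp; omega
    · exfalso; clear e1 hp; omega
    · obtain ⟨u1, u2, u3, u4⟩ := ME6a_ev _ _ _ _ _ _ _ _ _ 12 (by norm_num) e1 (by push_cast at e4 ⊢; linarith) (hp 1 (by omega)) (hp 3 (by omega)) (hp 5 (by omega)) (hp 7 (by omega))
      have q1 := hp 1 (by omega)
      have q3 := hp 3 (by omega)
      have q5 := hp 5 (by omega)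
      have q7 := hp 7 (by omega)
      clear e1 e4 hp
      exact ME6a_fin hREP hCTE hPRD _ x hxE hle _ _ (ME6a_y10 hCLQ) hx5 (by rw [← h56]; rfl) (by rw [h7]; rfl) ⟨(by show cN 5 x 0 = 2; omega), (by show cN 5 x 1 = 0; omega), (by show cN 5 x 2 = 3; omega), (by show cN 5 x 3 = 0; omega), (by show cN 5 x 4 = 0; omega), (by show cN 5 x 5 = 0; omega), (by show cN 5 x 6 = 0; omega), (by show cN 5 x 7 = 0; omega), (by show cN 5 x 8 = 0; omega)⟩ (Or.inr (by norm_num))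
    · obtain ⟨u1, u2, u3, u4⟩ := ME6a_od _ _ _ _ _ _ _ _ _ 21 (by norm_num) e1 (by push_cast at e4 ⊢; linarith) (hp 0 (by omega)) (hp 2 (by omega)) (hp 4 (by omega)) (hp 6 (by omega)) (hp 8 (by omega))
      have q0 := hp 0 (by omega)
      have q2 := hp 2 (by omega)
      have q4 := hp 4 (by omega)
      have q6 := hp 6 (by omega)
      have q8 := hp 8 (by omega)
      clear e1 e4 hp
      exact ME6a_fin hREP hCTE hPRD _ x hxE hle _ _ (ME6a_y11 hCLQ) hx5 (by rw [← h56]; rfl) (by rw [h7]; rfl) ⟨(by show cN 5 x 0 = 0; omega), (by show cN 5 x 1 = 3; omega), (by show cN 5 x 2 = 0; omega), (by show cN 5 x 3 = 2; omega), (by show cN 5 x 4 = 0; omega), (by show cN 5 x 5 = 0; omega), (by show cN 5 x 6 = 0; omega), (by show cN 5 x 7 = 0; omega), (by show cN 5 x 8 = 0; omega)⟩ (Or.inl (by omega))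
    · obtain ⟨u1, u2, u3, u4⟩ := ME6a_ev _ _ _ _ _ _ _ _ _ 24 (by norm_num) e1 (by push_cast at e4 ⊢; linarith) (hp 1 (by omega)) (hp 3 (by omega)) (hp 5 (by omega)) (hp 7 (by omega))
      have q1 := hp 1 (by omega)
      have q3 := hp 3 (by omega)
      have q5 := hp 5 (by omega)
      have q7 := hp 7 (by omega)
      clear e1 e4 hp
      exact ME6a_fin hREP hCTE hPRD _ x hxE hle _ _ (ME6a_y12 hCLQ) hx5 (by rw [← h56]; rfl) (by rw [h7]; rfl) ⟨(by show cN 5 x 0 = 2; omega), (by show cN 5 x 1 = 0; omega), (by show cN 5 x 2 = 2; omega), (by show cN 5 x 3 = 0; omega), (by show cN 5 x 4 = 1; omega), (by show cN 5 x 5 = 0; omega), (by show cN 5 x 6 = 0; omega), (by show cN 5 x 7 = 0; omega), (by show cN 5 x 8 = 0; omega)⟩ (Or.inr (by norm_num))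
    · obtain ⟨u1, u2, u3, u4⟩ := ME6a_od _ _ _ _ _ _ _ _ _ 21 (by norm_num) e1 (by push_cast at e4 ⊢; linarith) (hp 0 (by omega)) (hp 2 (by omega)) (hp 4 (by omega)) (hp 6 (by omega)) (hp 8 (by omega))
      have q0 := hp 0 (by omega)
      have q2 := hp 2 (by omega)
      have q4 := hp 4 (by omega)
      have q6 := hp 6 (by omega)
      have q8 := hp 8 (by omega)
      clear e1 e4 hp
      exact ME6a_fin hREP hCTE hPRD _ x hxE hle _ _ (ME6a_y13 hCLQ) hx5 (by rw [← h56]; rfl) (by rw [h7]; rfl) ⟨(by show cN 5 x 0 = 0; omega), (by show cN 5 x 1 = 3; omega), (by show cN 5 x 2 = 0; omega), (by show cN 5 x 3 = 2; omega), (by show cN 5 x 4 = 0; omega), (by show cN 5 x 5 = 0; omega), (by show cN 5 x 6 = 0; omega), (by show cN 5 x 7 = 0; omega), (by show cN 5 x 8 = 0; omega)⟩ (Or.inl (by omega))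
    · obtain ⟨u1, u2, u3, u4⟩ := ME6a_ev _ _ _ _ _ _ _ _ _ 12 (by norm_num) e1 (by push_cast at e4 ⊢; linarith) (hp 1 (by omega)) (hp 3 (by omega)) (hp 5 (by omega)) (hp 7 (by omega))
      have q1 := hp 1 (by omega)
      have q3 := hp 3 (by omega)
      have q5 := hp 5 (by omega)
      have q7 := hp 7 (by omega)
      clear e1 e4 hp
      exact ME6a_fin hREP hCTE hPRD _ x hxE hle _ _ (ME6a_y14 hCLQ) hx5 (by rw [← h56]; rfl) (by rw [h7]; rfl) ⟨(by show cN 5 x 0 = 2; omega), (by show cN 5 x 1 = 0; omega), (by show cN 5 x 2 = 3; omega), (by show cN 5 x 3 = 0; omega), (by show cN 5 x 4 = 0; omega), (by show cN 5 x 5 = 0; omega), (by show cN 5 x 6 = 0; omega), (by show cN 5 x 7 = 0; omega), (by show cN 5 x 8 = 0; omega)⟩ (Or.inr (by norm_num))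
    · exfalso; clear e1 hp; omega
    · exfalso; clear e1 hp; omega

end Pool.Agent.SOL
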